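import Pool.Agent.Helper6.EA.Defs

/-!
# The exact border for all arities: the constants are at most `2 ^ (c j)`
-/

set_option autoImplicit false

namespace Pool.Agent.Helper6.EA

/-- at most `2 ^ (c j)` for all `j ≥ 1` -/
def Bd40 (f : ℕ → ℕ) : Prop := ∃ c : ℕ, ∀ j, 1 ≤ j → f j ≤ 2 ^ (c * j)

lemma bd_const (a : ℕ) : Bd40 fun _ => a := by
  refine ⟨a, fun j hj => ?_⟩
  calc a ≤ 2 ^ a := (Nat.lt_two_pow_self).le
    _ ≤ 2 ^ (a * j) := Nat.pow_le_pow_right (by norm_num) (Nat.le_mul_of_pos_right _ hj)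

lemma Bd40.mul {f g : ℕ → ℕ} (hf : Bd40 f) (hg : Bd40 g) : Bd40 fun j => f j * g j := by
  obtain ⟨c, hc⟩ := hf
  obtain ⟨d, hd⟩ := hg
  refine ⟨c + d, fun j hj => ?_⟩
  rw [Nat.add_mul, pow_add]
  exact Nat.mul_le_mul (hc j hj) (hd j hj)

lemma Bd40.add {f g : ℕ → ℕ} (hf : Bd40 f) (hg : Bd40 g) : Bd40 fun j => f j + g j := by
  obtain ⟨c, hc⟩ := hf
  obtain ⟨d, hd⟩ := hg
  refine ⟨c + d + 1, fun j hj => ?_⟩
  have h1 : 2 ^ (c * j) ≤ 2 ^ ((c + d) * j) :=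
    Nat.pow_le_pow_right (by norm_num) (Nat.mul_le_mul_right _ (by omega))
  have h2 : 2 ^ (d * j) ≤ 2 ^ ((c + d) * j) :=
    Nat.pow_le_pow_right (by norm_num) (Nat.mul_le_mul_right _ (by omega))
  have h3 : 2 ^ 1 ≤ 2 ^ j := Nat.pow_le_pow_right (by norm_num) hj
  calc f j + g j ≤ 2 ^ ((c + d) * j) + 2 ^ ((c + d) * j) :=
        Nat.add_le_add ((hc j hj).trans h1) ((hd j hj).trans h2)
    _ = 2 ^ ((c + d) * j) * 2 ^ 1 := by rw [pow_one, mul_two]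
    _ ≤ 2 ^ ((c + d) * j) * 2 ^ j := Nat.mul_le_mul_left _ h3
    _ = 2 ^ ((c + d + 1) * j) := by rw [← pow_add, Nat.add_mul (c + d) 1, one_mul]

lemma Bd40.pow {f : ℕ → ℕ} (hf : Bd40 f) (a : ℕ) : Bd40 fun j => f j ^ a := by
  obtain ⟨c, hc⟩ := hf
  refine ⟨c * a, fun j hj => ?_⟩
  calc f j ^ a ≤ (2 ^ (c * j)) ^ a := Nat.pow_le_pow_left (hc j hj) a
    _ = 2 ^ (c * a * j) := by
        rw [← pow_mul]
        congr 1
        ring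

lemma bd_two_pow (a : ℕ) : Bd40 fun j => 2 ^ (a * j) := ⟨a, fun _ _ => le_rfl⟩

lemma bd_q : Bd40 fun j => 2 ^ j := ⟨1, fun j _ => by rw [one_mul]⟩

lemma bd_cL (r : ℕ) {l : ℕ → ℕ} (hl : Bd40 l) : Bd40 fun j => cL r (l j) :=
  (((bd_const r).mul hl).add (bd_const 1)).pow r

lemma bd_cθ (r : ℕ) {l B q : ℕ → ℕ} (hl : Bd40 l) (hB : Bd40 B) (hq : Bd40 q) :
    Bd40 fun j => cθ r (l j) (B j) (q j) :=
  ((((bd_const (2 * r)).mul (bd_cL r hl)).mul hB).mul hq)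

lemma bd_cD (r : ℕ) {l B q : ℕ → ℕ} (hl : Bd40 l) (hB : Bd40 B) (hq : Bd40 q) :
    Bd40 fun j => cD r (l j) (B j) (q j) :=
  (bd_const (r + 1)).mul (((((bd_const (2 * r)).mul (bd_cL r hl)).mul hB)).add (bd_cθ r hl hB hq))

lemma bd_cT (r : ℕ) {l B q : ℕ → ℕ} (hl : Bd40 l) (hB : Bd40 B) (hq : Bd40 q) :
    Bd40 fun j => cT r (l j) (B j) (q j) :=
  ((bd_const (2 * r)).mul (bd_cθ r hl hB hq)).add (bd_const 1)

lemma bd_cB (r : ℕ) {D : ℕ → ℕ} (hD : Bd40 D) : Bd40 fun j => cB r (D j) := (hD.pow r).pow (r + 1)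

lemma bd_dE (r m : ℕ) : Bd40 fun j => dE r (2 ^ ((r + 1) * j)) (2 ^ j) m := by
  induction m with
  | zero => exact bd_const 1
  | succ m ih => exact ih.add (bd_cD r (bd_two_pow (r + 1)) (bd_cB r ih) bd_q)

lemma bd_tE (r m : ℕ) : Bd40 fun j => tE r (2 ^ ((r + 1) * j)) (2 ^ j) m := by
  induction m with
  | zero => exact bd_const 0
  | succ m ih =>
    exact (ih.add (bd_cT r (bd_two_pow (r + 1)) (bd_cB r (bd_dE r m)) bd_q)).add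
      ((bd_const (4 * (r + 1) ^ 2)).mul (bd_dE r m))

/-- the degrees, thresholds and numbers of connected tuples are at most `2 ^ (c j)` -/
theorem dE_tE_le (r m : ℕ) : ∃ c : ℕ, ∀ j, 1 ≤ j →
    dE r (2 ^ ((r + 1) * j)) (2 ^ j) m ≤ 2 ^ (c * j) ∧ tE r (2 ^ ((r + 1) * j)) (2 ^ j) m ≤ 2 ^ (c * j) ∧
      cB r (dE r (2 ^ ((r + 1) * j)) (2 ^ j) m) ≤ 2 ^ (c * j) := by
  obtain ⟨c1, h1⟩ := bd_dE r m
  obtain ⟨c2, h2⟩ := bd_tE r m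
  obtain ⟨c3, h3⟩ := bd_cB r (bd_dE r m)
  have hle : ∀ {c j : ℕ}, c ≤ c1 + c2 + c3 → 2 ^ (c * j) ≤ 2 ^ ((c1 + c2 + c3) * j) := fun h =>
    Nat.pow_le_pow_right (by norm_num) (Nat.mul_le_mul_right _ h)
  exact ⟨c1 + c2 + c3, fun j hj => ⟨(h1 j hj).trans (hle (by omega)), (h2 j hj).trans (hle (by omega)),
    (h3 j hj).trans (hle (by omega))⟩⟩

lemma bd_dE' (r e m : ℕ) : Bd40 fun j => dE r (2 ^ (e * j)) (2 ^ j) m := by
  induction m with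
  | zero => exact bd_const 1
  | succ m ih => exact ih.add (bd_cD r (bd_two_pow e) (bd_cB r ih) bd_q)

lemma bd_tE' (r e m : ℕ) : Bd40 fun j => tE r (2 ^ (e * j)) (2 ^ j) m := by
  induction m with
  | zero => exact bd_const 0
  | succ m ih =>
    exact (ih.add (bd_cT r (bd_two_pow e) (bd_cB r (bd_dE' r e m)) bd_q)).add
      ((bd_const (4 * (r + 1) ^ 2)).mul (bd_dE' r e m))

/-- the same for `l = 2 ^ (e j)` -/
theorem dE_tE_le' (r e m : ℕ) : ∃ c : ℕ, ∀ j, 1 ≤ j →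
    dE r (2 ^ (e * j)) (2 ^ j) m ≤ 2 ^ (c * j) ∧ tE r (2 ^ (e * j)) (2 ^ j) m ≤ 2 ^ (c * j) ∧
      cB r (dE r (2 ^ (e * j)) (2 ^ j) m) ≤ 2 ^ (c * j) := by
  obtain ⟨c1, h1⟩ := bd_dE' r e m
  obtain ⟨c2, h2⟩ := bd_tE' r e m
  obtain ⟨c3, h3⟩ := bd_cB r (bd_dE' r e m)
  have hle : ∀ {c j : ℕ}, c ≤ c1 + c2 + c3 → 2 ^ (c * j) ≤ 2 ^ ((c1 + c2 + c3) * j) := fun h =>
    Nat.pow_le_pow_right (by norm_num) (Nat.mul_le_mul_right _ h)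
  exact ⟨c1 + c2 + c3, fun j hj => ⟨(h1 j hj).trans (hle (by omega)), (h2 j hj).trans (hle (by omega)),
    (h3 j hj).trans (hle (by omega))⟩⟩

end Pool.Agent.Helper6.EA
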