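import Pool.Agent.Helper6.EA.Defs
import Pool.Agent.Helper40.EK.Key
import Pool.Agent.Helper6.MC.Sharp2

/-!
EA15: exponentially many automorphisms give families, all arities (over EA12, EA13, EA14)
-/

set_option autoImplicit false

namespace Pool.Agent.Helper6.EA

open FirstOrder Pool.Agent.Helper20.Spectra Pool.Agent.Helper31.QD Pool.Agent.Helper38.MC
  Pool.Agent.Helper58.QD Pool.Agent.Helper40.MC Pool.Agent.Helper6.MC
open Pool.Agent.Helper12.EK (Gr Ball Cmp)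

/-- EA12 -/
def StmtStepR (r : ℕ) : Prop := ∀ (S : Type) (ar : S → ℕ), (∀ s, ar s ≤ r) → ∀ (V : Type)
  [Fintype V] (R : Interp S ar V) (A₀ : Finset V) (s s' q l M₀ D : ℕ), 1 ≤ q →
    (∀ x, (oA R A₀ x).card ≤ s) →
    s * (cB r (dE r l q r)) ^ 2 * (r * l + 1) ^ r * q * (q ^ r - 1) ^ l ≤ (q ^ r) ^ l →
    (q - 1) ^ (M₀ + 1) * q ≤ q ^ (M₀ + 1) →
    ((M₀ + 1) * (dE r l q r + 1) ^ 2) ^ (Nat.log 2 M₀ + 1) ≤ s' →
    M₀ * (D + tE r l q r + 3 * r + 3) ≤ s' → (∀ t, 1 ≤ t → t ≤ M₀ → ¬ FamR R D t) →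
    ∃ A, A₀ ⊆ A ∧ q * A.card ≤ q * A₀.card + (r * (r + 3) + 2) * Fintype.card V ∧
      ∀ x, (oA R A x).card ≤ s'

/-- EA13 -/
def StmtNumR (r : ℕ) : Prop := ∃ C : ℕ, 1 ≤ C ∧ ∀ a b : ℕ, ∃ j₀, 1 ≤ j₀ ∧ ∀ j, j₀ ≤ j →
    2 ^ (C * (j + 1) ^ 2) * (cB r (dE r (2 ^ ((r + 1) * j)) (2 ^ j) r)) ^ 2 * (r * 2 ^ ((r + 1) * j) + 1) ^ r * 2 ^ j *
      ((2 ^ j) ^ r - 1) ^ 2 ^ ((r + 1) * j) ≤ ((2 ^ j) ^ r) ^ 2 ^ ((r + 1) * j) ∧
    (2 ^ j - 1) ^ (4 ^ j + 1) * 2 ^ j ≤ (2 ^ j) ^ (4 ^ j + 1) ∧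
    ((4 ^ j + 1) * (dE r (2 ^ ((r + 1) * j)) (2 ^ j) r + 1) ^ 2) ^ (Nat.log 2 (4 ^ j) + 1) ≤ 2 ^ (C * j ^ 2) ∧
    4 ^ j * ((a * 4 ^ j + b) + tE r (2 ^ ((r + 1) * j)) (2 ^ j) r + 3 * r + 3) ≤ 2 ^ (C * j ^ 2)

open Classical in
/-- EA14 -/
def StmtCardGA : Prop := ∀ (S : Type) (ar : S → ℕ) (V : Type) [Fintype V] (R : Interp S ar V)
  (A B : Finset V) (s : ℕ), (∀ x, (oA R A x).card ≤ s) →
    (GA R A).card ≤ s ^ B.card * (GA R (A ∪ B)).card

lemma oA_mono {S : Type} {ar : S → ℕ} {V : Type} [Fintype V] {R : Interp S ar V} {A A' : Finset V}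
    (hA : A ⊆ A') (x : V) : oA R A' x ⊆ oA R A x := by
  classical
  intro y hy
  unfold oA orb at hy ⊢
  rw [Finset.mem_filter] at hy ⊢
  obtain ⟨h1, σ, hσ, h2⟩ := hy
  refine ⟨h1, σ, ?_, h2⟩
  rw [Subgroup.mem_inf] at hσ ⊢
  exact ⟨hσ.1, fun z hz => hσ.2 z (hA hz)⟩

theorem keyA_of (r : ℕ) (hStep : StmtStepR r) (hNum : StmtNumR r) (hCard : StmtCardGA) (a b : ℕ) :
    ∃ K : ℕ, ∀ (S : Type) (ar : S → ℕ), (∀ s, ar s ≤ r) → ∀ (n : ℕ)
    (R : Interp S ar (Fin n)), (∀ t, 1 ≤ t → ¬ FamR R (a * t + b) t) → Nat.card (AuG R) ≤ K ^ n := by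
  classical
  obtain ⟨C, hC1, hN⟩ := hNum
  obtain ⟨j₀, hj1, hnum⟩ := hN a b
  obtain ⟨c, hc⟩ : ∃ c, c = r * (r + 3) + 2 := ⟨_, rfl⟩
  obtain ⟨E, hE⟩ : ∃ E : ℕ → ℕ, E = fun j => 2 * (j + 1) ^ 2 + 4 * (j + 1) + 6 := ⟨_, rfl⟩
  have hErec : ∀ j, 2 * (E j) = E (j + 1) + 2 * (j + 1) ^ 2 := by
    intro j
    rw [hE]
    ring
  refine ⟨2 ^ (2 * (c * C) * E j₀ + C * j₀ ^ 2 * 2 ^ j₀), ?_⟩
  intro S ar har n R hfam
  obtain ⟨G, hG⟩ : ∃ G, G = Nat.card (AuG R) := ⟨_, rfl⟩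
  rw [← hG]
  obtain ⟨H, hH⟩ : ∃ H : Finset (Fin n) → ℕ, H = fun F => (GA R F).card := ⟨_, rfl⟩
  have hH0 : H ∅ = G := by
    rw [hH, hG]
    show (GA R ∅).card = Nat.card {g : Equiv.Perm (Fin n) // g ∈ AuG R}
    rw [Nat.card_eq_fintype_card, Fintype.card_subtype]
    congr 1
    ext g
    rw [mem_GS, Finset.mem_filter]
    simp
  have hcard : ∀ (A B : Finset (Fin n)) (s : ℕ), (∀ x, (oA R A x).card ≤ s) →
      H A ≤ s ^ B.card * H (A ∪ B) := by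
    intro A B s hs
    rw [hH]
    have h1 := hCard S ar (Fin n) R A B s hs
    have h2 : (A ∪ B : Finset (Fin n)) = @Union.union (Finset (Fin n))
        (@Finset.instUnion (Fin n) (fun a b => Classical.propDecidable (a = b))) A B := by
      apply Finset.ext
      intro x
      rw [Finset.mem_union, @Finset.mem_union (Fin n) (fun a b => Classical.propDecidable (a = b))]
    rw [h2]
    exact h1
  -- the induction
  have hind : ∀ d j, j + d = j₀ + n + 1 → j₀ ≤ j → ∃ A F : Finset (Fin n), A ⊆ F ∧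
      2 ^ j * A.card ≤ 2 * (c * n) ∧ (∀ x, (oA R A x).card ≤ 2 ^ (C * j ^ 2)) ∧
      G ^ 2 ^ j ≤ 2 ^ (2 * (c * C * n) * E j) * H F ^ 2 ^ j := by
    intro d
    induction d with
    | zero =>
      intro j hj _
      refine ⟨∅, ∅, Finset.Subset.refl _, by simp, fun x => ?_, ?_⟩
      · refine (Finset.card_le_univ _).trans ?_
        rw [Fintype.card_fin]
        have h1 : n < 2 ^ n := Nat.lt_two_pow_self
        have h2 : 2 ^ n ≤ 2 ^ (C * j ^ 2) := by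
          apply Nat.pow_le_pow_right (by norm_num)
          nlinarith
        omega
      · rw [hH0]
        exact Nat.le_mul_of_pos_left _ (by positivity)
    | succ d ih =>
      intro j hj hj0
      obtain ⟨A', F', hAF, hA1, hA2, hA3⟩ := ih (j + 1) (by omega) (by omega)
      obtain ⟨n1, n2, n3, n4⟩ := hnum j hj0
      obtain ⟨A, hAA, hA4, hA5⟩ := hStep S ar har (Fin n) R A' _ _ (2 ^ j) (2 ^ ((r + 1) * j))
        (4 ^ j) (a * 4 ^ j + b) Nat.one_le_two_pow hA2 n1 n2 n3 n4 (fun t ht1 ht2 hF => by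
          apply hfam t ht1
          refine FamR.fewer hF ?_
          have := Nat.mul_le_mul_left a ht2
          omega)
      rw [Fintype.card_fin, ← hc] at hA4
      have h5 : 2 * (2 ^ j * A'.card) ≤ 2 * (c * n) := by
        calc 2 * (2 ^ j * A'.card) = 2 ^ (j + 1) * A'.card := by ring
          _ ≤ _ := hA1
      have h6 : 2 ^ j * A.card ≤ 2 * (c * n) := by omega
      refine ⟨A, F' ∪ A, Finset.subset_union_right, h6, hA5, ?_⟩
      have h1 : G ^ 2 ^ (j + 1) ≤ 2 ^ (2 * (c * C * n * E (j + 1))) * H F' ^ 2 ^ (j + 1) := by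
        refine hA3.trans (le_of_eq ?_)
        congr 2
        ring
      have h2 := Pool.Agent.Helper40.EK.root j h1
      have h3 := hcard F' A (2 ^ (C * (j + 1) ^ 2)) (fun x =>
        (Finset.card_le_card (oA_mono hAF x)).trans (hA2 x))
      have h4 : H F' ^ 2 ^ j ≤ 2 ^ (C * (j + 1) ^ 2 * (2 * (c * n))) * H (F' ∪ A) ^ 2 ^ j := by
        calc H F' ^ 2 ^ j ≤ ((2 ^ (C * (j + 1) ^ 2)) ^ A.card * H (F' ∪ A)) ^ 2 ^ j :=
              Nat.pow_le_pow_left h3 _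
          _ = 2 ^ (C * (j + 1) ^ 2 * (2 ^ j * A.card)) * H (F' ∪ A) ^ 2 ^ j := by
              rw [mul_pow, ← pow_mul, ← pow_mul]
              congr 2
              ring
          _ ≤ _ := by
              apply Nat.mul_le_mul_right
              apply Nat.pow_le_pow_right (by norm_num)
              exact Nat.mul_le_mul_left _ h6
      calc G ^ 2 ^ j ≤ 2 ^ (c * C * n * E (j + 1)) * H F' ^ 2 ^ j := h2
        _ ≤ 2 ^ (c * C * n * E (j + 1)) *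
            (2 ^ (C * (j + 1) ^ 2 * (2 * (c * n))) * H (F' ∪ A) ^ 2 ^ j) :=
            Nat.mul_le_mul_left _ h4
        _ = 2 ^ (2 * (c * C * n) * E j) * H (F' ∪ A) ^ 2 ^ j := by
            rw [← mul_assoc, ← pow_add]
            congr 2
            have h7 := hErec j
            calc c * C * n * E (j + 1) + C * (j + 1) ^ 2 * (2 * (c * n)) =
                c * C * n * (E (j + 1) + 2 * (j + 1) ^ 2) := by ring
              _ = 2 * (c * C * n) * E j := by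
                rw [← h7]
                ring
  obtain ⟨A, F, hAF, hA1, hA2, hA3⟩ := hind (n + 1) j₀ (by omega) le_rfl
  have h1 := hcard F Finset.univ (2 ^ (C * j₀ ^ 2)) (fun x =>
    (Finset.card_le_card (oA_mono hAF x)).trans (hA2 x))
  have h2 : H (F ∪ Finset.univ) ≤ 1 := by
    rw [hH]
    show (GA R (F ∪ Finset.univ)).card ≤ 1
    rw [Finset.card_le_one]
    intro g hg g' hg'
    rw [mem_GS] at hg hg'
    exact Equiv.ext fun x => (hg.2 x (by simp)).trans (hg'.2 x (by simp)).symm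
  have h3 : H F ≤ (2 ^ (C * j₀ ^ 2)) ^ n := by
    rw [Finset.card_univ, Fintype.card_fin] at h1
    exact h1.trans ((Nat.mul_le_mul_left _ h2).trans (le_of_eq (mul_one _)))
  calc G ≤ G ^ 2 ^ j₀ := Nat.le_self_pow (by positivity) G
    _ ≤ 2 ^ (2 * (c * C * n) * E j₀) * H F ^ 2 ^ j₀ := hA3
    _ ≤ 2 ^ (2 * (c * C * n) * E j₀) * ((2 ^ (C * j₀ ^ 2)) ^ n) ^ 2 ^ j₀ :=
        Nat.mul_le_mul_left _ (Nat.pow_le_pow_left h3 _)
    _ = (2 ^ (2 * (c * C) * E j₀ + C * j₀ ^ 2 * 2 ^ j₀)) ^ n := by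
        rw [← pow_mul, ← pow_mul, ← pow_mul, ← pow_add]
        congr 1
        ring

end Pool.Agent.Helper6.EA
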