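import Pool.Agent.Helper40.EA.Key

/-!
ME3: many automorphisms give exponentially large families, all arities
-/

set_option autoImplicit false

namespace Pool.Agent.Helper6.EA

open FirstOrder Pool.Agent.Helper20.Spectra Pool.Agent.Helper31.QD Pool.Agent.Helper38.MC
  Pool.Agent.Helper58.QD Pool.Agent.Helper40.MC Pool.Agent.Helper6.MC
open Pool.Agent.Helper12.EK (Gr Ball Cmp)

/-- ME2: the numbers, with `q = 2 ^ j`, `l = 2 ^ ((r + 2) * j)`, `M₀ = (j + 1) * 2 ^ j` -/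
def StmtNumM (r a b : ℕ) : Prop := ∃ C : ℕ, 1 ≤ C ∧ ∃ j₀, 1 ≤ j₀ ∧ ∀ j, j₀ ≤ j →
    2 ^ (C * (j + 2) * 2 ^ (j + 1)) * (cB r (dE r (2 ^ ((r + 2) * j)) (2 ^ j) r)) ^ 2 *
      (r * 2 ^ ((r + 2) * j) + 1) ^ r * 2 ^ j * ((2 ^ j) ^ r - 1) ^ 2 ^ ((r + 2) * j) ≤
        ((2 ^ j) ^ r) ^ 2 ^ ((r + 2) * j) ∧
    (2 ^ j - 1) ^ ((j + 1) * 2 ^ j + 1) * 2 ^ j ≤ (2 ^ j) ^ ((j + 1) * 2 ^ j + 1) ∧
    (((j + 1) * 2 ^ j + 1) * (dE r (2 ^ ((r + 2) * j)) (2 ^ j) r + 1) ^ 2) ^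
      (Nat.log 2 ((j + 1) * 2 ^ j) + 1) ≤ 2 ^ (C * (j + 1) * 2 ^ j) ∧
    (j + 1) * 2 ^ j * (2 ^ (a * ((j + 1) * 2 ^ j) + b) + tE r (2 ^ ((r + 2) * j)) (2 ^ j) r +
      3 * r + 3) ≤ 2 ^ (C * (j + 1) * 2 ^ j)

/-- the induction: from the level `T` down to the level `j₀` -/
theorem keyM_ind (r a b C j₀ : ℕ) (hStep : StmtStepR r) (hCard : StmtCardGA)
    (hnum : ∀ j, j₀ ≤ j →
      2 ^ (C * (j + 2) * 2 ^ (j + 1)) * (cB r (dE r (2 ^ ((r + 2) * j)) (2 ^ j) r)) ^ 2 *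
        (r * 2 ^ ((r + 2) * j) + 1) ^ r * 2 ^ j * ((2 ^ j) ^ r - 1) ^ 2 ^ ((r + 2) * j) ≤
          ((2 ^ j) ^ r) ^ 2 ^ ((r + 2) * j) ∧
      (2 ^ j - 1) ^ ((j + 1) * 2 ^ j + 1) * 2 ^ j ≤ (2 ^ j) ^ ((j + 1) * 2 ^ j + 1) ∧
      (((j + 1) * 2 ^ j + 1) * (dE r (2 ^ ((r + 2) * j)) (2 ^ j) r + 1) ^ 2) ^
        (Nat.log 2 ((j + 1) * 2 ^ j) + 1) ≤ 2 ^ (C * (j + 1) * 2 ^ j) ∧
      (j + 1) * 2 ^ j * (2 ^ (a * ((j + 1) * 2 ^ j) + b) + tE r (2 ^ ((r + 2) * j)) (2 ^ j) r +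
        3 * r + 3) ≤ 2 ^ (C * (j + 1) * 2 ^ j))
    (S : Type) (ar : S → ℕ) (har : ∀ s, ar s ≤ r) (n : ℕ) (R : Interp S ar (Fin n))
    (hfam : ∀ j, j₀ ≤ j → ∀ t, 1 ≤ t → t ≤ (j + 1) * 2 ^ j →
      ¬ FamR R (2 ^ (a * ((j + 1) * 2 ^ j) + b)) t) (T : ℕ) (hT0 : j₀ ≤ T)
    (hT : n ≤ 2 ^ (C * (T + 1) * 2 ^ T)) :
    Nat.card (AuG R) ≤ 2 ^ ((T - j₀) * (4 * (r * (r + 3) + 2) * C * (T + 2) * n) +
      C * (j₀ + 1) * 2 ^ j₀ * n) := by
  classical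
  obtain ⟨c, hc⟩ : ∃ c, c = r * (r + 3) + 2 := ⟨_, rfl⟩
  rw [← hc]
  obtain ⟨G, hG⟩ : ∃ G, G = Nat.card (AuG R) := ⟨_, rfl⟩
  rw [← hG]
  obtain ⟨H, hH⟩ : ∃ H : Finset (Fin n) → ℕ, H = fun F => (GA R F).card := ⟨_, rfl⟩
  have hH0 : H ∅ = G := by
    rw [hH, hG]
    show (GA R ∅).card = Nat.card {g : Equiv.Perm (Fin n) // g ∈ AuG R}
    rw [Nat.card_eq_fintype_card, Fintype.card_subtype]
    congr 1
    ext g
    rw [mem_GS, Finset.mem_filter]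
    simp
  have hcard : ∀ (A B : Finset (Fin n)) (s : ℕ), (∀ x, (oA R A x).card ≤ s) →
      H A ≤ s ^ B.card * H (A ∪ B) := by
    intro A B s hs
    rw [hH]
    have h1 := hCard S ar (Fin n) R A B s hs
    have h2 : (A ∪ B : Finset (Fin n)) = @Union.union (Finset (Fin n))
        (@Finset.instUnion (Fin n) (fun a b => Classical.propDecidable (a = b))) A B := by
      apply Finset.ext
      intro x
      rw [Finset.mem_union, @Finset.mem_union (Fin n) (fun a b => Classical.propDecidable (a = b))]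
    rw [h2]
    exact h1
  obtain ⟨W, hW⟩ : ∃ W, W = 4 * c * C * (T + 2) * n := ⟨_, rfl⟩
  rw [← hW]
  -- the induction
  have hind : ∀ d j, j + d = T → j₀ ≤ j → ∃ A : Finset (Fin n),
      2 ^ j * A.card ≤ 2 * (c * n) ∧ (∀ x, (oA R A x).card ≤ 2 ^ (C * (j + 1) * 2 ^ j)) ∧
      G ≤ 2 ^ (d * W) * H A := by
    intro d
    induction d with
    | zero =>
      intro j hj _
      obtain rfl : j = T := by omega
      refine ⟨∅, by simp, fun x => ?_, ?_⟩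
      · refine (Finset.card_le_univ _).trans ?_
        rw [Fintype.card_fin]
        exact hT
      · rw [hH0]
        exact Nat.le_mul_of_pos_left _ (by positivity)
    | succ d ih =>
      intro j hj hj0
      obtain ⟨A', hA1, hA2, hA3⟩ := ih (j + 1) (by omega) (by omega)
      obtain ⟨n1, n2, n3, n4⟩ := hnum j hj0
      have hA2' : ∀ x, (oA R A' x).card ≤ 2 ^ (C * (j + 2) * 2 ^ (j + 1)) := hA2
      obtain ⟨A, hAA, hA4, hA5⟩ := hStep S ar har (Fin n) R A' _ _ (2 ^ j) (2 ^ ((r + 2) * j))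
        ((j + 1) * 2 ^ j) (2 ^ (a * ((j + 1) * 2 ^ j) + b)) Nat.one_le_two_pow hA2' n1 n2 n3 n4
        (hfam j hj0)
      rw [Fintype.card_fin, ← hc] at hA4
      have h5 : 2 * (2 ^ j * A'.card) ≤ 2 * (c * n) := by
        calc 2 * (2 ^ j * A'.card) = 2 ^ (j + 1) * A'.card := by ring
          _ ≤ _ := hA1
      have h6 : 2 ^ j * A.card ≤ 2 * (c * n) := by omega
      refine ⟨A, h6, hA5, ?_⟩
      have h3 := hcard A' A _ hA2'
      rw [Finset.union_eq_right.2 hAA] at h3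
      have h4 : (2 ^ (C * (j + 2) * 2 ^ (j + 1))) ^ A.card ≤ 2 ^ W := by
        rw [← pow_mul]
        apply Nat.pow_le_pow_right (by norm_num)
        calc C * (j + 2) * 2 ^ (j + 1) * A.card = 2 * C * (j + 2) * (2 ^ j * A.card) := by ring
          _ ≤ 2 * C * (j + 2) * (2 * (c * n)) := Nat.mul_le_mul_left _ h6
          _ = 4 * c * C * n * (j + 2) := by ring
          _ ≤ 4 * c * C * n * (T + 2) := Nat.mul_le_mul_left _ (by omega)
          _ = W := by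
            rw [hW]
            ring
      calc G ≤ 2 ^ (d * W) * H A' := hA3
        _ ≤ 2 ^ (d * W) * (2 ^ W * H A) :=
            Nat.mul_le_mul_left _ (h3.trans (Nat.mul_le_mul_right _ h4))
        _ = 2 ^ ((d + 1) * W) * H A := by
            rw [← mul_assoc, ← pow_add]
            congr 2
            ring
  obtain ⟨A, hA1, hA2, hA3⟩ := hind (T - j₀) j₀ (by omega) le_rfl
  have h1 := hcard A Finset.univ _ hA2
  have h2 : H (A ∪ Finset.univ) ≤ 1 := by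
    rw [hH]
    show (GA R (A ∪ Finset.univ)).card ≤ 1
    rw [Finset.card_le_one]
    intro g hg g' hg'
    rw [mem_GS] at hg hg'
    exact Equiv.ext fun x => (hg.2 x (by simp)).trans (hg'.2 x (by simp)).symm
  have h3 : H A ≤ (2 ^ (C * (j₀ + 1) * 2 ^ j₀)) ^ n := by
    rw [Finset.card_univ, Fintype.card_fin] at h1
    exact h1.trans ((Nat.mul_le_mul_left _ h2).trans (le_of_eq (mul_one _)))
  calc G ≤ 2 ^ ((T - j₀) * W) * H A := hA3
    _ ≤ 2 ^ ((T - j₀) * W) * (2 ^ (C * (j₀ + 1) * 2 ^ j₀)) ^ n := Nat.mul_le_mul_left _ h3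
    _ = 2 ^ ((T - j₀) * W + C * (j₀ + 1) * 2 ^ j₀ * n) := by
        rw [← pow_mul, ← pow_add]

theorem keyM_of (r a b : ℕ) (hStep : StmtStepR r) (hNum : StmtNumM r a b) (hCard : StmtCardGA) :
    ∃ C : ℕ, ∀ (S : Type) (ar : S → ℕ), (∀ s, ar s ≤ r) → ∀ (n : ℕ)
    (R : Interp S ar (Fin n)), (∀ t, 1 ≤ t → ¬ FamR R (2 ^ (a * t + b)) t) →
      Nat.card (AuG R) ≤ 2 ^ (C * n * (Nat.log 2 (Nat.log 2 n + 1) + 1) ^ 2) := by
  obtain ⟨C, hC1, j₀, hj1, hnum⟩ := hNum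
  obtain ⟨c, hc⟩ : ∃ c, c = r * (r + 3) + 2 := ⟨_, rfl⟩
  refine ⟨4 * c * C * (j₀ + 3) + C * (j₀ + 1) * 2 ^ j₀, ?_⟩
  intro S ar har n R hfam
  obtain ⟨j₁, hj₁⟩ : ∃ j₁, j₁ = Nat.log 2 (Nat.log 2 n + 1) := ⟨_, rfl⟩
  rw [← hj₁]
  have h := keyM_ind r a b C j₀ hStep hCard hnum S ar har n R (fun j _ t ht1 ht2 hF => by
      apply hfam t ht1
      refine FamR.fewer hF ?_
      apply Nat.pow_le_pow_right (by norm_num)
      have := Nat.mul_le_mul_left a ht2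
      omega) (j₀ + j₁ + 1) (by omega) (by
      have h1 : n < 2 ^ (Nat.log 2 n + 1) := Nat.lt_pow_succ_log_self (by norm_num) n
      have h2 : Nat.log 2 n + 1 < 2 ^ (j₁ + 1) := by
        rw [hj₁]
        exact Nat.lt_pow_succ_log_self (by norm_num) _
      have h3 : 2 ^ (j₁ + 1) ≤ 2 ^ (j₀ + j₁ + 1) := Nat.pow_le_pow_right (by norm_num) (by omega)
      have h4 : 1 ≤ C * (j₀ + j₁ + 1 + 1) := Nat.mul_pos hC1 (by omega)
      have h5 : Nat.log 2 n + 1 ≤ C * (j₀ + j₁ + 1 + 1) * 2 ^ (j₀ + j₁ + 1) :=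
        (h2.le.trans h3).trans (Nat.le_mul_of_pos_left _ h4)
      exact h1.le.trans (Nat.pow_le_pow_right (by norm_num) h5))
  rw [← hc] at h
  refine h.trans ?_
  apply Nat.pow_le_pow_right (by norm_num)
  have h6 : j₀ + j₁ + 1 - j₀ = j₁ + 1 := by omega
  rw [h6]
  have h7 : j₀ + j₁ + 1 + 2 ≤ (j₀ + 3) * (j₁ + 1) := by nlinarith
  have h8 : 1 ≤ (j₁ + 1) ^ 2 := Nat.one_le_pow _ _ (by omega)
  calc (j₁ + 1) * (4 * c * C * (j₀ + j₁ + 1 + 2) * n) + C * (j₀ + 1) * 2 ^ j₀ * n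
      = 4 * c * C * n * (j₁ + 1) * (j₀ + j₁ + 1 + 2) + C * (j₀ + 1) * 2 ^ j₀ * n * 1 := by ring
    _ ≤ 4 * c * C * n * (j₁ + 1) * ((j₀ + 3) * (j₁ + 1)) +
          C * (j₀ + 1) * 2 ^ j₀ * n * (j₁ + 1) ^ 2 :=
        Nat.add_le_add (Nat.mul_le_mul_left _ h7) (Nat.mul_le_mul_left _ h8)
    _ = _ := by ring

/-- ME3, the form with `(log n) ^ 2` more blocks -/
def StmtKeyM : Prop := ∀ r a : ℕ, ∃ C n₀ : ℕ, ∀ n, n₀ ≤ n → ∀ (S : Type) (ar : S → ℕ),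
    (∀ s, ar s ≤ r) → ∀ R : Interp S ar (Fin n),
    (∀ t, 1 ≤ t → ¬ FamR R (2 ^ (a * t) * Pool.Agent.Helper6.MC.lam n ^ 2) t) →
      Nat.card (AuG R) ≤ 2 ^ (C * n * (Nat.log 2 (Nat.log 2 n + 1) + 1) ^ 2)

theorem keyM2_of (hStep : ∀ r, StmtStepR r) (hNum : ∀ r a b, StmtNumM r a b) (hCard : StmtCardGA) :
    StmtKeyM := by
  intro r a
  obtain ⟨C, hC1, j₀, hj1, hnum⟩ := hNum r (a + 2) 0
  obtain ⟨c, hc⟩ : ∃ c, c = r * (r + 3) + 2 := ⟨_, rfl⟩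
  refine ⟨12 * c * C + 4 * C, 2 ^ 2 ^ 2 ^ j₀, ?_⟩
  intro n hn S ar har R hfam
  obtain ⟨L, hL⟩ : ∃ L, L = Nat.log 2 (Nat.log 2 n + 1) + 1 := ⟨_, rfl⟩
  rw [← hL]
  obtain ⟨j₂, hj₂⟩ : ∃ j₂, j₂ = Nat.log 2 L + 1 := ⟨_, rfl⟩
  have hL1 : 1 ≤ L := by omega
  have hlog : Nat.log 2 n + 1 < 2 ^ L := by
    rw [hL]
    exact Nat.lt_pow_succ_log_self (by norm_num) _
  have h2L : L < 2 ^ j₂ := by
    rw [hj₂]
    exact Nat.lt_pow_succ_log_self (by norm_num) _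
  have h2L' : 2 ^ j₂ ≤ 2 * L := by
    have h1 : 2 ^ Nat.log 2 L ≤ L := Nat.pow_log_le_self 2 (by omega)
    rw [hj₂, pow_succ]
    omega
  have hjL : j₂ ≤ L := by
    have h1 : Nat.log 2 L < L := Nat.log_lt_self 2 (by omega)
    omega
  have hj0 : j₀ ≤ j₂ := by
    have h1 : 2 ^ 2 ^ j₀ ≤ Nat.log 2 n := by
      have := Nat.log_mono_right (b := 2) hn
      rwa [Nat.log_pow (by norm_num)] at this
    have h2 : 2 ^ j₀ ≤ Nat.log 2 (Nat.log 2 n + 1) := by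
      have := Nat.log_mono_right (b := 2) (h1.trans (Nat.le_succ _))
      rwa [Nat.log_pow (by norm_num)] at this
    have h3 : j₀ ≤ Nat.log 2 L := by
      have := Nat.log_mono_right (b := 2) (h2.trans (by omega : _ ≤ L))
      rwa [Nat.log_pow (by norm_num)] at this
    omega
  have h := keyM_ind r (a + 2) 0 C j₂ (hStep r) hCard (fun j hj => hnum j (hj0.trans hj)) S ar har n R
    (fun j hj t ht1 ht2 hF => by
      apply hfam t ht1
      refine FamR.fewer hF ?_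
      have hM : L ≤ (j + 1) * 2 ^ j := by
        have h1 : 2 ^ j₂ ≤ 2 ^ j := Nat.pow_le_pow_right (by norm_num) hj
        have h3 : 2 ^ j ≤ (j + 1) * 2 ^ j := Nat.le_mul_of_pos_left _ (by omega)
        omega
      have hlam : Pool.Agent.Helper6.MC.lam n ≤ 2 ^ ((j + 1) * 2 ^ j) := by
        refine le_trans ?_ (Nat.pow_le_pow_right (by norm_num) hM)
        unfold Pool.Agent.Helper6.MC.lam
        exact hlog.le
      calc 2 ^ (a * t) * Pool.Agent.Helper6.MC.lam n ^ 2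
          ≤ 2 ^ (a * ((j + 1) * 2 ^ j)) * (2 ^ ((j + 1) * 2 ^ j)) ^ 2 :=
            Nat.mul_le_mul (Nat.pow_le_pow_right (by norm_num) (Nat.mul_le_mul_left _ ht2))
              (Nat.pow_le_pow_left hlam 2)
        _ = 2 ^ ((a + 2) * ((j + 1) * 2 ^ j) + 0) := by
            rw [← pow_mul, ← pow_add]
            congr 1
            ring) L hjL (by
      have h1 : n < 2 ^ (Nat.log 2 n + 1) := Nat.lt_pow_succ_log_self (by norm_num) n
      have h4 : 1 ≤ C * (L + 1) := Nat.mul_pos hC1 (by omega)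
      have h5 : Nat.log 2 n + 1 ≤ C * (L + 1) * 2 ^ L :=
        hlog.le.trans (Nat.le_mul_of_pos_left _ h4)
      exact h1.le.trans (Nat.pow_le_pow_right (by norm_num) h5))
  rw [← hc] at h
  refine h.trans ?_
  apply Nat.pow_le_pow_right (by norm_num)
  have h7 : (L - j₂) * (4 * c * C * (L + 2) * n) ≤ L * (4 * c * C * (3 * L) * n) := by
    apply Nat.mul_le_mul (by omega)
    apply Nat.mul_le_mul_right
    apply Nat.mul_le_mul_left
    omega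
  have h8 : C * (j₂ + 1) * 2 ^ j₂ * n ≤ C * (2 * L) * (2 * L) * n := by
    apply Nat.mul_le_mul_right
    apply Nat.mul_le_mul _ h2L'
    apply Nat.mul_le_mul_left
    omega
  calc (L - j₂) * (4 * c * C * (L + 2) * n) + C * (j₂ + 1) * 2 ^ j₂ * n
      ≤ L * (4 * c * C * (3 * L) * n) + C * (2 * L) * (2 * L) * n := Nat.add_le_add h7 h8
    _ = _ := by ring

/-- ME3, helper58's form: at least `2 ^ (a L)` blocks, `L = log log n` -/
theorem keyM3_of (r a b : ℕ) (hStep : StmtStepR r) (hNum : StmtNumM r a b) (hCard : StmtCardGA) :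
    ∃ C : ℕ, ∀ (S : Type) (ar : S → ℕ), (∀ s, ar s ≤ r) → ∀ (n : ℕ)
    (R : Interp S ar (Fin n)),
      (∀ t, 1 ≤ t → ¬ FamR R (2 ^ (a * max t (Nat.log 2 (Nat.log 2 n + 1) + 1) + b)) t) →
      Nat.card (AuG R) ≤ 2 ^ (C * n * (Nat.log 2 (Nat.log 2 n + 1) + 1) ^ 2) := by
  obtain ⟨C, hC1, j₀, hj1, hnum⟩ := hNum
  obtain ⟨c, hc⟩ : ∃ c, c = r * (r + 3) + 2 := ⟨_, rfl⟩
  refine ⟨4 * c * C * (j₀ + 3) + 2 * C * (j₀ + 2) * 2 ^ j₀, ?_⟩
  intro S ar har n R hfam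
  obtain ⟨L, hL⟩ : ∃ L, L = Nat.log 2 (Nat.log 2 n + 1) + 1 := ⟨_, rfl⟩
  rw [← hL] at hfam ⊢
  obtain ⟨j₂, hj₂⟩ : ∃ j₂, j₂ = Nat.log 2 L + 1 := ⟨_, rfl⟩
  have hL1 : 1 ≤ L := by omega
  have hlog : Nat.log 2 n + 1 < 2 ^ L := by
    rw [hL]
    exact Nat.lt_pow_succ_log_self (by norm_num) _
  have h2L : L < 2 ^ j₂ := by
    rw [hj₂]
    exact Nat.lt_pow_succ_log_self (by norm_num) _
  have h2L' : 2 ^ j₂ ≤ 2 * L := by
    have h1 : 2 ^ Nat.log 2 L ≤ L := Nat.pow_log_le_self 2 (by omega)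
    rw [hj₂, pow_succ]
    omega
  have hjL : j₂ ≤ L := by
    have h1 : Nat.log 2 L < L := Nat.log_lt_self 2 (by omega)
    omega
  have h := keyM_ind r a b C (j₀ + j₂) hStep hCard (fun j hj => hnum j (by omega)) S ar har n R
    (fun j hj t ht1 ht2 hF => by
      apply hfam t ht1
      refine FamR.fewer hF ?_
      have hM : L ≤ (j + 1) * 2 ^ j := by
        have h1 : 2 ^ j₂ ≤ 2 ^ j := Nat.pow_le_pow_right (by norm_num) (by omega)
        have h3 : 2 ^ j ≤ (j + 1) * 2 ^ j := Nat.le_mul_of_pos_left _ (by omega)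
        omega
      apply Nat.pow_le_pow_right (by norm_num)
      have := Nat.mul_le_mul_left a (max_le ht2 hM)
      omega) (L + j₀) (by omega) (by
      have h1 : n < 2 ^ (Nat.log 2 n + 1) := Nat.lt_pow_succ_log_self (by norm_num) n
      have h3 : 2 ^ L ≤ 2 ^ (L + j₀) := Nat.pow_le_pow_right (by norm_num) (by omega)
      have h4 : 1 ≤ C * (L + j₀ + 1) := Nat.mul_pos hC1 (by omega)
      have h5 : Nat.log 2 n + 1 ≤ C * (L + j₀ + 1) * 2 ^ (L + j₀) :=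
        (hlog.le.trans h3).trans (Nat.le_mul_of_pos_left _ h4)
      exact h1.le.trans (Nat.pow_le_pow_right (by norm_num) h5))
  rw [← hc] at h
  refine h.trans ?_
  apply Nat.pow_le_pow_right (by norm_num)
  have h6 : L + j₀ + 2 ≤ (j₀ + 3) * L := by nlinarith
  have h7 : (L + j₀ - (j₀ + j₂)) * (4 * c * C * (L + j₀ + 2) * n) ≤
      L * (4 * c * C * ((j₀ + 3) * L) * n) := by
    apply Nat.mul_le_mul (by omega)
    apply Nat.mul_le_mul_right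
    exact Nat.mul_le_mul_left _ h6
  have h9 : j₀ + j₂ + 1 ≤ (j₀ + 2) * L := by nlinarith
  have h8 : C * (j₀ + j₂ + 1) * 2 ^ (j₀ + j₂) * n ≤ C * ((j₀ + 2) * L) * (2 ^ j₀ * (2 * L)) * n := by
    apply Nat.mul_le_mul_right
    apply Nat.mul_le_mul
    · exact Nat.mul_le_mul_left _ h9
    · rw [pow_add]
      exact Nat.mul_le_mul_left _ h2L'
  calc (L + j₀ - (j₀ + j₂)) * (4 * c * C * (L + j₀ + 2) * n) +
        C * (j₀ + j₂ + 1) * 2 ^ (j₀ + j₂) * n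
      ≤ L * (4 * c * C * ((j₀ + 3) * L) * n) + C * ((j₀ + 2) * L) * (2 ^ j₀ * (2 * L)) * n :=
        Nat.add_le_add h7 h8
    _ = _ := by ring

end Pool.Agent.Helper6.EA
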